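import Mathlib

/-!
Radial homeomorphisms of the plane, used to change the length of a short pendant edge of a planar
polygon without moving the rest of the polygon.
-/

set_option autoImplicit false

namespace Pool.Agent.U55.Radial

open Set

variable {E : Type*} [NormedAddCommGroup E] [NormedSpace ℝ E]

/-- radial profile: the power map on `[0,R]`, the identity beyond `R` -/
noncomputable def prof (R s : ℝ) (r : ℝ) : ℝ := R * (min (r / R) 1) ^ s * max 1 (r / R)

theorem prof_of_le {R s r : ℝ} (hR : 0 < R) (h : r ≤ R) : prof R s r = R * (r / R) ^ s := by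
  have h1 : r / R ≤ 1 := (div_le_one hR).mpr h
  unfold prof
  rw [min_eq_left h1, max_eq_left h1, mul_one]

theorem prof_of_ge {R s r : ℝ} (hR : 0 < R) (h : R ≤ r) : prof R s r = r := by
  have h1 : 1 ≤ r / R := (one_le_div hR).mpr h
  unfold prof
  rw [min_eq_right h1, max_eq_right h1, Real.one_rpow, mul_one, mul_div_cancel₀ _ hR.ne']

theorem prof_zero {R s : ℝ} (hR : 0 < R) (hs : 0 < s) : prof R s 0 = 0 := by
  rw [prof_of_le hR hR.le, zero_div, Real.zero_rpow hs.ne', mul_zero]

theorem prof_pos {R s r : ℝ} (hR : 0 < R) (hr : 0 < r) : 0 < prof R s r := by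
  unfold prof
  have : 0 < min (r / R) 1 := lt_min (div_pos hr hR) one_pos
  have h2 : 0 < max 1 (r / R) := lt_max_of_lt_left one_pos
  exact mul_pos (mul_pos hR (Real.rpow_pos_of_pos this s)) h2

theorem prof_nonneg {R s r : ℝ} (hR : 0 < R) (hs : 0 < s) (hr : 0 ≤ r) : 0 ≤ prof R s r := by
  rcases hr.eq_or_lt with h | h
  · rw [← h, prof_zero hR hs]
  · exact (prof_pos hR h).le

theorem prof_continuous {R s : ℝ} (hs : 0 < s) : Continuous (prof R s) := by
  unfold prof
  have h1 : Continuous fun r : ℝ => (min (r / R) 1) ^ s :=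
    (Real.continuous_rpow_const hs.le).comp ((continuous_id.div_const R).min continuous_const)
  exact (continuous_const.mul h1).mul (continuous_const.max (continuous_id.div_const R))

theorem prof_le {R s r : ℝ} (hR : 0 < R) (hs : 0 < s) (h0 : 0 ≤ r) (h : r ≤ R) :
    prof R s r ≤ R := by
  rw [prof_of_le hR h]
  have h1 : r / R ≤ 1 := (div_le_one hR).mpr h
  have h2 : (r / R) ^ s ≤ 1 := Real.rpow_le_one (div_nonneg h0 hR.le) h1 hs.le
  nlinarith

theorem prof_prof {R s : ℝ} (hR : 0 < R) (hs : 0 < s) {r : ℝ} (hr : 0 ≤ r) :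
    prof R s⁻¹ (prof R s r) = r := by
  rcases le_total r R with h | h
  · rw [prof_of_le hR (prof_le hR hs hr h), prof_of_le hR h, mul_div_cancel_left₀ _ hR.ne',
      Real.rpow_rpow_inv (div_nonneg hr hR.le) hs.ne', mul_div_cancel₀ _ hR.ne']
  · rw [prof_of_ge hR h, prof_of_ge hR h]

theorem prof_mono {R s : ℝ} (hR : 0 < R) (hs : 0 < s) {r t : ℝ} (hr : 0 ≤ r) (h : r ≤ t) :
    prof R s r ≤ prof R s t := by
  unfold prof
  have h1 : r / R ≤ t / R := div_le_div_of_nonneg_right h hR.le
  have h0 : 0 ≤ r / R := div_nonneg hr hR.le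
  have h2 : (min (r / R) 1) ^ s ≤ (min (t / R) 1) ^ s :=
    Real.rpow_le_rpow (le_min h0 zero_le_one) (min_le_min_right _ h1) hs.le
  have h3 : max 1 (r / R) ≤ max 1 (t / R) := max_le_max_left _ h1
  have h4 : 0 ≤ (min (t / R) 1) ^ s := Real.rpow_nonneg (le_min (h0.trans h1) zero_le_one) _
  have h5 : 0 ≤ max 1 (r / R) := zero_le_one.trans (le_max_left _ _)
  exact mul_le_mul (mul_le_mul_of_nonneg_left h2 hR.le) h3 h5 (mul_nonneg hR.le h4)

/-- the radial map -/
noncomputable def radFun (R s : ℝ) (p : E) : E := (prof R s ‖p‖ / ‖p‖) • p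

theorem norm_radFun {R s : ℝ} (hR : 0 < R) (hs : 0 < s) (p : E) :
    ‖radFun R s p‖ = prof R s ‖p‖ := by
  rcases eq_or_ne p 0 with h | h
  · simp [radFun, h, prof_zero hR hs]
  · have hp : 0 < ‖p‖ := norm_pos_iff.mpr h
    unfold radFun
    rw [norm_smul, Real.norm_of_nonneg (div_nonneg (prof_nonneg hR hs hp.le) hp.le),
      div_mul_cancel₀ _ hp.ne']

theorem radFun_radFun {R s : ℝ} (hR : 0 < R) (hs : 0 < s) (p : E) :
    radFun R s⁻¹ (radFun R s p) = p := by
  rcases eq_or_ne p 0 with h | h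
  · simp [radFun, h]
  · have hp : 0 < ‖p‖ := norm_pos_iff.mpr h
    have h2 : prof R s ‖p‖ ≠ 0 := (prof_pos hR hp).ne'
    have e : radFun R s⁻¹ (radFun R s p) =
      (prof R s⁻¹ ‖radFun R s p‖ / ‖radFun R s p‖) • radFun R s p := rfl
    rw [e, norm_radFun hR hs, prof_prof hR hs hp.le]
    unfold radFun
    rw [smul_smul]
    have : ‖p‖ / prof R s ‖p‖ * (prof R s ‖p‖ / ‖p‖) = 1 := by field_simp
    rw [this, one_smul]

theorem radFun_continuous {R s : ℝ} (hR : 0 < R) (hs : 0 < s) :
    Continuous (radFun R s : E → E) := by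
  rw [continuous_iff_continuousAt]
  intro p
  rcases eq_or_ne p 0 with h | h
  · subst h
    have h0 : radFun R s (0 : E) = 0 := by simp [radFun]
    unfold ContinuousAt
    rw [h0, tendsto_zero_iff_norm_tendsto_zero]
    have e : (fun p : E => ‖radFun R s p‖) = fun p => prof R s ‖p‖ := by
      funext p; exact norm_radFun hR hs p
    rw [e]
    have hc : Continuous fun p : E => prof R s ‖p‖ := (prof_continuous hs).comp continuous_norm
    have := hc.tendsto (0 : E)
    simpa [prof_zero hR hs] using this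
  · have hp : ‖p‖ ≠ 0 := norm_ne_zero_iff.mpr h
    have h1 : ContinuousAt (fun p : E => prof R s ‖p‖ / ‖p‖) p :=
      ((prof_continuous hs).comp continuous_norm).continuousAt.div
        continuous_norm.continuousAt hp
    exact h1.smul continuousAt_id

/-- the radial homeomorphism with centre `c` -/
noncomputable def rad (R s : ℝ) (hR : 0 < R) (hs : 0 < s) (c : E) : E ≃ₜ E where
  toFun p := c + radFun R s (p - c)
  invFun p := c + radFun R s⁻¹ (p - c)
  left_inv p := by
    simp only [add_sub_cancel_left]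
    rw [radFun_radFun hR hs]; abel
  right_inv p := by
    simp only [add_sub_cancel_left]
    have := radFun_radFun hR (inv_pos.mpr hs) (p - c)
    rw [inv_inv] at this
    rw [this]; abel
  continuous_toFun :=
    continuous_const.add ((radFun_continuous hR hs).comp (continuous_id.sub continuous_const))
  continuous_invFun :=
    continuous_const.add ((radFun_continuous hR (inv_pos.mpr hs)).comp
      (continuous_id.sub continuous_const))

theorem rad_apply (R s : ℝ) (hR : 0 < R) (hs : 0 < s) (c p : E) :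
    rad R s hR hs c p = c + radFun R s (p - c) := rfl

theorem rad_symm_apply (R s : ℝ) (hR : 0 < R) (hs : 0 < s) (c p : E) :
    (rad R s hR hs c).symm p = c + radFun R s⁻¹ (p - c) := rfl

theorem rad_far (R s : ℝ) (hR : 0 < R) (hs : 0 < s) (c p : E) (h : R ≤ ‖p - c‖) :
    rad R s hR hs c p = p := by
  have hp : ‖p - c‖ ≠ 0 := (hR.trans_le h).ne'
  rw [rad_apply, radFun, prof_of_ge hR h, div_self hp, one_smul]; abel

theorem rad_centre (R s : ℝ) (hR : 0 < R) (hs : 0 < s) (c : E) : rad R s hR hs c c = c := by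
  rw [rad_apply, radFun]; simp

theorem radFun_smul {R s : ℝ} (hR : 0 < R) (hs : 0 < s) (u : E) {t : ℝ} (h0 : 0 ≤ t)
    (h1 : t ≤ 1) : ∃ r : ℝ, 0 ≤ r ∧ r ≤ 1 ∧ radFun R s (t • u) = r • radFun R s u := by
  rcases eq_or_ne u 0 with h | h
  · exact ⟨0, le_rfl, zero_le_one, by simp [radFun, h]⟩
  · have hu : 0 < ‖u‖ := norm_pos_iff.mpr h
    rcases h0.eq_or_lt with h' | h'
    · exact ⟨0, le_rfl, zero_le_one, by simp [radFun, ← h']⟩
    · have hq : 0 < prof R s ‖u‖ := prof_pos hR hu
      refine ⟨prof R s (t * ‖u‖) / prof R s ‖u‖,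
        div_nonneg (prof_nonneg hR hs (by positivity)) hq.le,
        (div_le_one hq).mpr (prof_mono hR hs (by positivity) (by nlinarith)), ?_⟩
      unfold radFun
      rw [norm_smul, Real.norm_of_nonneg h0, smul_smul, smul_smul]
      congr 1
      field_simp

theorem rad_image_subset (R s : ℝ) (hR : 0 < R) (hs : 0 < s) (c q : E) :
    rad R s hR hs c '' segment ℝ c q ⊆ segment ℝ c (rad R s hR hs c q) := by
  rintro _ ⟨p, hp, rfl⟩
  rw [segment_eq_image'] at hp
  obtain ⟨t, ⟨h0, h1⟩, rfl⟩ := hp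
  obtain ⟨r, hr0, hr1, hr⟩ := radFun_smul hR hs (q - c) h0 h1
  rw [segment_eq_image']
  refine ⟨r, ⟨hr0, hr1⟩, ?_⟩
  simp only [rad_apply, add_sub_cancel_left]
  rw [hr]

theorem rad_segment (R s : ℝ) (hR : 0 < R) (hs : 0 < s) (c q : E) :
    rad R s hR hs c '' segment ℝ c q = segment ℝ c (rad R s hR hs c q) := by
  apply Subset.antisymm (rad_image_subset R s hR hs c q)
  intro p hp
  have h := rad_image_subset R s⁻¹ hR (inv_pos.mpr hs) c (rad R s hR hs c q)
  have e : ∀ z, rad R s⁻¹ hR (inv_pos.mpr hs) c z = (rad R s hR hs c).symm z := fun z => rfl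
  have h2 := h ⟨p, hp, rfl⟩
  rw [e, e, Homeomorph.symm_apply_apply] at h2
  exact ⟨_, h2, Homeomorph.apply_symm_apply _ _⟩

/-- There is a radial homeomorphism with centre `c` which is the identity outside the ball of
radius `R`, maps rays to themselves, and carries `c + a • v` to `c + b • v`. -/
theorem exists_rad {R : ℝ} (hR : 0 < R) (c v : E) (hv : v ≠ 0) {a b : ℝ} (ha : 0 < a)
    (hb : 0 < b) (haR : a * ‖v‖ < R) (hbR : b * ‖v‖ < R) :
    ∃ h : E ≃ₜ E, h c = c ∧ (∀ p, R ≤ ‖p - c‖ → h p = p) ∧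
      (∀ q, h '' segment ℝ c q = segment ℝ c (h q)) ∧ h (c + a • v) = c + b • v := by
  have hn : 0 < ‖v‖ := norm_pos_iff.mpr hv
  set α := a * ‖v‖ / R with hα
  set β := b * ‖v‖ / R with hβ
  have hα0 : 0 < α := by positivity
  have hβ0 : 0 < β := by positivity
  have hα1 : α < 1 := (div_lt_one hR).mpr haR
  have hβ1 : β < 1 := (div_lt_one hR).mpr hbR
  have hla : Real.log α < 0 := Real.log_neg hα0 hα1
  have hlb : Real.log β < 0 := Real.log_neg hβ0 hβ1
  set s := Real.log β / Real.log α with hs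
  have hs0 : 0 < s := div_pos_of_neg_of_neg hlb hla
  refine ⟨rad R s hR hs0 c, rad_centre _ _ _ _ _, fun p hp => rad_far _ _ _ _ _ _ hp,
    fun q => rad_segment _ _ _ _ _ _, ?_⟩
  rw [rad_apply, add_sub_cancel_left]
  congr 1
  unfold radFun
  rw [norm_smul, Real.norm_of_nonneg ha.le, prof_of_le hR haR.le, ← hα]
  have e : α ^ s = β := by
    rw [Real.rpow_def_of_pos hα0, hs, mul_div_cancel₀ _ hla.ne, Real.exp_log hβ0]
  rw [e, hβ, smul_smul]
  congr 1
  field_simp

end Pool.Agent.U55.Radial
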