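import Mathlib
import Pool.Agent.U55.Radial

/-!
Changing the lengths of all pendant edges of a polygon by one homeomorphism of the plane.
-/

set_option autoImplicit false

namespace Pool.Agent.U55.Spurs

open Set

variable {E : Type*} [NormedAddCommGroup E] [NormedSpace ℝ E]

theorem image_eq_of_fix {h : E ≃ₜ E} {S : Set E} (H : ∀ p ∈ S, h p = p) : h '' S = S := by
  ext p
  constructor
  · rintro ⟨q, hq, rfl⟩
    rw [H q hq]; exact hq
  · intro hp
    exact ⟨p, hp, H p hp⟩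

theorem spur_far {c v c' : E} {R e : ℝ} (he : 0 < e) (heR : e * ‖v‖ < R)
    (h : 2 * R ≤ ‖c - c'‖) {p : E} (hp : p ∈ segment ℝ c (c + e • v)) : R ≤ ‖p - c'‖ := by
  rw [segment_eq_image'] at hp
  obtain ⟨t, ⟨h0, h1⟩, rfl⟩ := hp
  simp only [add_sub_cancel_left]
  have h2 : ‖t • (e • v)‖ ≤ R := by
    rw [norm_smul, norm_smul, Real.norm_of_nonneg h0, Real.norm_of_nonneg he.le]
    nlinarith [mul_nonneg he.le (norm_nonneg v)]
  have h3 : c + t • e • v - c' = (c - c') + t • e • v := by abel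
  rw [h3]
  have h4 := norm_sub_le_norm_add (c - c') (t • e • v)
  linarith

theorem chain {n : ℕ} (Y : Fin n → E) (rot : Fin n → Fin n) (v : Fin n → E)
    (hrot : ∀ i, rot i ≠ i) (hv : ∀ i, v i ≠ 0) {R : ℝ} (hR : 0 < R)
    (hfar : ∀ i j, i ≠ j → j ≠ rot i → ∀ p ∈ segment ℝ (Y i) (Y (rot i)), R ≤ ‖p - Y j‖)
    (hver : ∀ i j, i ≠ j → 2 * R ≤ ‖Y i - Y j‖) {a b : ℝ} (ha : 0 < a) (hb : 0 < b)
    (haR : ∀ i, a * ‖v i‖ < R) (hbR : ∀ i, b * ‖v i‖ < R) (S : Finset (Fin n)) :
    ∃ h : E ≃ₜ E, (∀ i, h '' segment ℝ (Y i) (Y (rot i)) = segment ℝ (Y i) (Y (rot i))) ∧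
      (∀ i, h (Y i) = Y i) ∧
      (∀ i, h '' segment ℝ (Y i) (Y i + a • v i) =
        segment ℝ (Y i) (Y i + (if i ∈ S then b else a) • v i)) ∧
      ∀ i, h (Y i + a • v i) = Y i + (if i ∈ S then b else a) • v i := by
  classical
  induction S using Finset.induction_on with
  | empty => exact ⟨Homeomorph.refl E, by simp, by simp, by simp, by simp⟩
  | insert j S hj ih =>
    obtain ⟨h, h1, h2, h3, h4⟩ := ih
    obtain ⟨g, g1, g2, g3, g4⟩ := Radial.exists_rad hR (Y j) (v j) (hv j) ha hb (haR j) (hbR j)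
    have hpos : ∀ i, 0 < (if i ∈ S then b else a) := by
      intro i; split_ifs <;> assumption
    have hlt : ∀ i, (if i ∈ S then b else a) * ‖v i‖ < R := by
      intro i; split_ifs
      · exact hbR i
      · exact haR i
    have gY : ∀ i, g (Y i) = Y i := by
      intro i
      by_cases hij : i = j
      · rw [hij, g1]
      · exact g2 _ (by have := hver i j hij; linarith)
    have htr : (h.trans g : E → E) = g ∘ h := rfl
    refine ⟨h.trans g, fun i => ?_, fun i => ?_, fun i => ?_, fun i => ?_⟩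
    · rw [htr, image_comp, h1]
      by_cases hij : i = j
      · subst hij
        rw [g3, gY]
      · by_cases hj2 : j = rot i
        · rw [← hj2, segment_symm, g3, gY]
        · exact image_eq_of_fix (fun p hp => g2 p (hfar i j hij hj2 p hp))
    · rw [Homeomorph.trans_apply, h2, gY]
    · rw [htr, image_comp, h3]
      by_cases hij : i = j
      · subst hij
        rw [if_neg hj, if_pos (Finset.mem_insert_self _ _), g3, g4]
      · have e : (i ∈ insert j S) ↔ i ∈ S := by simp [hij]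
        simp only [e]
        exact image_eq_of_fix (fun p hp => g2 p (spur_far (hpos i) (hlt i) (hver i j hij) hp))
    · rw [Homeomorph.trans_apply, h4]
      by_cases hij : i = j
      · subst hij
        rw [if_neg hj, if_pos (Finset.mem_insert_self _ _), g4]
      · have e : (i ∈ insert j S) ↔ i ∈ S := by simp [hij]
        simp only [e]
        exact g2 _ (spur_far (hpos i) (hlt i) (hver i j hij) (right_mem_segment ℝ _ _))

/-- a uniform radius -/
theorem exists_radius {n : ℕ} (Y : Fin n → E) (rot : Fin n → Fin n)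
    (hinj : Function.Injective Y)
    (hinc : ∀ i j, i ≠ j → j ≠ rot i → Y j ∉ segment ℝ (Y i) (Y (rot i))) :
    ∃ R : ℝ, 0 < R ∧
      (∀ i j, i ≠ j → j ≠ rot i → ∀ p ∈ segment ℝ (Y i) (Y (rot i)), R ≤ ‖p - Y j‖) ∧
      (∀ i j, i ≠ j → 2 * R ≤ ‖Y i - Y j‖) := by
  have key : ∀ q : Fin n × Fin n, ∀ᶠ R : ℝ in nhdsWithin 0 (Ioi 0),
      (q.1 ≠ q.2 → q.2 ≠ rot q.1 → ∀ p ∈ segment ℝ (Y q.1) (Y (rot q.1)), R ≤ ‖p - Y q.2‖) ∧
      (q.1 ≠ q.2 → 2 * R ≤ ‖Y q.1 - Y q.2‖) := by
    rintro ⟨i, j⟩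
    have hev : ∀ r : ℝ, 0 < r → ∀ᶠ R : ℝ in nhdsWithin 0 (Ioi 0), R < r := fun r hr =>
      mem_nhdsWithin_of_mem_nhds (Iio_mem_nhds hr)
    apply Filter.Eventually.and
    · by_cases hc : i ≠ j ∧ j ≠ rot i
      · have hcomp : IsCompact (segment ℝ (Y i) (Y (rot i))) := by
          rw [segment_eq_image']
          exact isCompact_Icc.image (by fun_prop)
        have hne : (segment ℝ (Y i) (Y (rot i))).Nonempty := ⟨_, left_mem_segment ℝ _ _⟩
        have hd : 0 < Metric.infDist (Y j) (segment ℝ (Y i) (Y (rot i))) :=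
          (hcomp.isClosed.notMem_iff_infDist_pos hne).mp (hinc i j hc.1 hc.2)
        filter_upwards [hev _ hd] with R hRlt _ _ p hp
        have h1 := Metric.infDist_le_dist_of_mem (x := Y j) hp
        rw [dist_comm, dist_eq_norm] at h1
        linarith
      · refine Filter.Eventually.of_forall (fun R h1 h2 => ?_)
        exact absurd ⟨h1, h2⟩ hc
    · by_cases hc : i ≠ j
      · have hd : 0 < ‖Y i - Y j‖ / 2 := by
          have := norm_pos_iff.mpr (sub_ne_zero.mpr (hinj.ne hc))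
          positivity
        filter_upwards [hev _ hd] with R hRlt _
        linarith
      · exact Filter.Eventually.of_forall (fun R h1 => absurd h1 hc)
  have hall := (Filter.eventually_all.mpr key).and self_mem_nhdsWithin
  obtain ⟨R, hR, hpos⟩ := hall.exists
  exact ⟨R, hpos, fun i j => (hR (i, j)).1, fun i j => (hR (i, j)).2⟩

/-- The homeomorphism changing the lengths of all pendant edges. -/
theorem exists_homeo {n : ℕ} (Y : Fin n → E) (rot : Fin n → Fin n) (v : Fin n → E)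
    (hrot : ∀ i, rot i ≠ i) (hv : ∀ i, v i ≠ 0) (hinj : Function.Injective Y)
    (hinc : ∀ i j, i ≠ j → j ≠ rot i → Y j ∉ segment ℝ (Y i) (Y (rot i))) :
    ∃ δ : ℝ, 0 < δ ∧ ∀ a b : ℝ, 0 < a → a < δ → 0 < b → b < δ →
    ∃ h : E ≃ₜ E, (∀ i, h '' segment ℝ (Y i) (Y (rot i)) = segment ℝ (Y i) (Y (rot i))) ∧
      (∀ i, h (Y i) = Y i) ∧
      (∀ i, h '' segment ℝ (Y i) (Y i + a • v i) = segment ℝ (Y i) (Y i + b • v i)) ∧
      ∀ i, h (Y i + a • v i) = Y i + b • v i := by
  obtain ⟨R, hR, h1, h2⟩ := exists_radius Y rot hinj hinc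
  set M := 1 + ∑ i, ‖v i‖ with hM
  have hM1 : ∀ i, ‖v i‖ < M := by
    intro i
    have := Finset.single_le_sum (f := fun i => ‖v i‖) (fun i _ => norm_nonneg _)
      (Finset.mem_univ i)
    rw [hM]; linarith
  have hM0 : 0 < M := by
    have : 0 ≤ ∑ i, ‖v i‖ := Finset.sum_nonneg (fun i _ => norm_nonneg _)
    rw [hM]; linarith
  have hb : ∀ c : ℝ, 0 < c → c < R / M → ∀ i, c * ‖v i‖ < R := by
    intro c hc hcR i
    rw [lt_div_iff₀ hM0] at hcR
    nlinarith [hM1 i, norm_nonneg (v i)]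
  refine ⟨R / M, by positivity, fun a b ha haR hb' hbR => ?_⟩
  obtain ⟨h, e1, e2, e3, e4⟩ := chain Y rot v hrot hv hR h1 h2 ha hb' (hb a ha haR) (hb b hb' hbR)
    Finset.univ
  refine ⟨h, e1, e2, fun i => ?_, fun i => ?_⟩
  · simpa using e3 i
  · simpa using e4 i

end Pool.Agent.U55.Spurs
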