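import Mathlib

open Topology Filter Set

namespace Pool.Agent.U55.BetaOm

theorem cp_add (X : Type*) [TopologicalSpace X] {f g : X → ℝ} (hf : Continuous f)
    (hg : Continuous g) : Continuous (f + g) := hf.add hg

theorem cp_zero (X : Type*) [TopologicalSpace X] : Continuous (0 : X → ℝ) := continuous_const

theorem cp_smul (X : Type*) [TopologicalSpace X] (c : ℝ) {f : X → ℝ} (hf : Continuous f) :
    Continuous (c • f) := hf.const_smul c

/-- `C_p(X)`: the linear space of continuous real-valued functions on `X`, with the topology of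
pointwise convergence (the subspace topology inherited from the product `X → ℝ`). -/
def Cp (X : Type*) [TopologicalSpace X] : Submodule ℝ (X → ℝ) where
  carrier := {f | Continuous f}
  add_mem' := fun hf hg => cp_add X hf hg
  zero_mem' := cp_zero X
  smul_mem' := fun c _ hf => cp_smul X c hf

/-- `X` and `Y` are l-equivalent: `C_p(X)` and `C_p(Y)` are linearly homeomorphic. -/
def LEquivalent (X Y : Type*) [TopologicalSpace X] [TopologicalSpace Y] : Prop :=
  Nonempty (Cp X ≃L[ℝ] Cp Y)

/-- The subspace `A` is l-embedded in `X`: there is a continuous linear extender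
`C_p(A) → C_p(X)`. -/
def IsLEmbedded {X : Type*} [TopologicalSpace X] (A : Set X) : Prop :=
  ∃ φ : Cp A →L[ℝ] Cp X, ∀ (f : Cp A) (a : A), (φ f : X → ℝ) a = (f : A → ℝ) a

/-- `X` is l-stable: `X` is l-equivalent to `X ⊕ A` for every l-embedded subspace `A`. -/
def IsLStable (X : Type*) [TopologicalSpace X] : Prop :=
  ∀ A : Set X, IsLEmbedded A → LEquivalent X (X ⊕ A)

/-- `X` is S-stable: `X × (ω + 1)` is l-equivalent to `X`; here `ℕ∞` with its order topology is
the convergent sequence `ω + 1`. -/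
def IsSStable (X : Type*) [TopologicalSpace X] : Prop :=
  LEquivalent (X × ℕ∞) X

theorem dual_finite {X : Type*} [TopologicalSpace X] (φ : Cp X →L[ℝ] ℝ) :
    ∃ (F : Finset X) (a : X → ℝ), ∀ f : Cp X, φ f = ∑ x ∈ F, a x * (f : X → ℝ) x := by
  let g : X → (Cp X →ₗ[ℝ] ℝ) := fun x => (LinearMap.proj x).comp (Cp X).subtype
  have hspan : (φ : Cp X →ₗ[ℝ] ℝ) ∈ Submodule.span ℝ (Set.range g) := by
    rw [LinearMap.mem_span_iff_continuous]
    have h1 : (⨅ x, TopologicalSpace.induced (g x) inferInstance : TopologicalSpace (Cp X))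
        = (inferInstance : TopologicalSpace (Cp X)) := by
      change _ = TopologicalSpace.induced Subtype.val Pi.topologicalSpace
      simp only [Pi.topologicalSpace, induced_iInf, induced_compose]
      rfl
    rw [h1]
    exact φ.continuous
  obtain ⟨c, hc⟩ := (Finsupp.mem_span_range_iff_exists_finsupp).1 hspan
  refine ⟨c.support, c, fun f => ?_⟩
  have := congrArg (fun L : Cp X →ₗ[ℝ] ℝ => L f) hc
  simp only [Finsupp.sum, LinearMap.coe_sum, Finset.sum_apply, LinearMap.smul_apply, smul_eq_mul] at this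
  exact this.symm

/-- build a continuous linear map into `Cp` from a formula -/
def mkMap {E Y : Type*} [AddCommGroup E] [Module ℝ E] [TopologicalSpace E] [TopologicalSpace Y]
    (T : E →ₗ[ℝ] (Y → ℝ)) (h1 : ∀ f, Continuous (T f)) (h2 : ∀ y, Continuous fun f => T f y) :
    E →L[ℝ] Cp Y where
  toLinearMap := T.codRestrict (Cp Y) h1
  cont := by
    refine Continuous.subtype_mk (continuous_pi h2) _


/-- composition with evaluation at a point -/
theorem eval_finite {X : Type*} [TopologicalSpace X] {A : Set X} (φ : Cp A →L[ℝ] Cp X) (x : X) :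
    ∃ (F : Finset A) (a : A → ℝ), ∀ f : Cp A, (φ f : X → ℝ) x = ∑ y ∈ F, a y * (f : A → ℝ) y := by
  let ev : Cp X →L[ℝ] ℝ := (ContinuousLinearMap.proj x).comp (Cp X).subtypeL
  obtain ⟨F, a, h⟩ := dual_finite (ev.comp φ)
  exact ⟨F, a, fun f => h f⟩

theorem isClosed_of_lEmbedded {X : Type*} [TopologicalSpace X] [CompactSpace X] [T2Space X]
    {A : Set X} (hA : IsLEmbedded A) : IsClosed A := by
  obtain ⟨φ, hφ⟩ := hA
  rw [← closure_subset_iff_isClosed]
  intro x hx
  by_contra hxA
  obtain ⟨F, a, hF⟩ := eval_finite φ x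
  have hFc : IsClosed (((↑) : A → X) '' (F : Set A)) := (F.finite_toSet.image _).isClosed
  have hdis : Disjoint (((↑) : A → X) '' (F : Set A)) {x} := by
    rw [Set.disjoint_singleton_right]
    rintro ⟨y, -, hy⟩
    exact hxA (hy ▸ y.2)
  obtain ⟨g, hg0, hg1, -⟩ := exists_continuous_zero_one_of_isClosed hFc isClosed_singleton hdis
  let f : Cp A := ⟨fun y => g y, g.continuous.comp continuous_subtype_val⟩
  have h1 : (φ f : X → ℝ) x = 0 := by
    rw [hF]
    refine Finset.sum_eq_zero fun y hy => ?_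
    have : g (y : X) = 0 := hg0 ⟨y, hy, rfl⟩
    simp [f, this]
  have h2 : Set.EqOn (φ f : X → ℝ) g (closure A) := by
    refine Set.EqOn.closure ?_ (φ f).2 g.continuous
    intro y hy
    exact hφ f ⟨y, hy⟩
  have h3 := h2 hx
  rw [h1, hg1 rfl] at h3
  exact absurd h3 (by norm_num)

theorem separable_of_lEmbedded {A : Set (Ultrafilter ℕ)} (hA : IsLEmbedded A) :
    ∃ D : Set A, D.Countable ∧ Dense D := by
  have hcl := isClosed_of_lEmbedded hA
  have : CompactSpace A := isCompact_iff_compactSpace.1 hcl.isCompact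
  obtain ⟨φ, hφ⟩ := hA
  choose F a hF using fun n : ℕ => eval_finite φ (pure n)
  refine ⟨⋃ n, (F n : Set A), Set.countable_iUnion fun n => (F n).countable_toSet, ?_⟩
  intro x
  by_contra hx
  have hdis : Disjoint (closure (⋃ n, (F n : Set A))) {x} := by
    rw [Set.disjoint_singleton_right]; exact hx
  obtain ⟨g, hg0, hg1, -⟩ := exists_continuous_zero_one_of_isClosed isClosed_closure isClosed_singleton hdis
  let f : Cp A := ⟨g, g.continuous⟩
  have h1 : ∀ n : ℕ, (φ f : Ultrafilter ℕ → ℝ) (pure n) = 0 := by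
    intro n
    rw [hF]
    refine Finset.sum_eq_zero fun y hy => ?_
    have : g y = 0 := hg0 (subset_closure (Set.mem_iUnion.2 ⟨n, hy⟩))
    simp [f, this]
  have h2 : (φ f : Ultrafilter ℕ → ℝ) = fun _ => 0 :=
    DenseRange.equalizer denseRange_pure (φ f).2 continuous_const (funext h1)
  have h3 := hφ f x
  rw [h2] at h3
  have h4 : g x = 1 := hg1 rfl
  change (0 : ℝ) = g x at h3
  rw [h4] at h3
  exact absurd h3 (by norm_num)

theorem clopen_sep {A : Set (Ultrafilter ℕ)} (d : ℕ → A) (U V : Set A) (hU : IsOpen U)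
    (hV : IsOpen V) (hUV : Disjoint U V) :
    ∃ S : Set ℕ, (∀ k, d k ∈ U → S ∈ (d k : Ultrafilter ℕ)) ∧
      (∀ k, d k ∈ V → S ∉ (d k : Ultrafilter ℕ)) := by
  classical
  have key : ∀ (W : Set A), IsOpen W → ∀ x ∈ W, ∃ P : Set ℕ, P ∈ (x : Ultrafilter ℕ) ∧
      ∀ y : A, P ∈ (y : Ultrafilter ℕ) → y ∈ W := by
    intro W hW x hx
    obtain ⟨W', hW', rfl⟩ := isOpen_induced_iff.1 hW
    obtain ⟨_, ⟨P, rfl⟩, hxP, hPW⟩ :=
      ultrafilterBasis_is_basis.exists_subset_of_mem_open (show (x : Ultrafilter ℕ) ∈ W' from hx) hW'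
    exact ⟨P, hxP, fun y hy => hPW hy⟩
  have hP : ∀ k, ∃ P : Set ℕ, (d k ∈ U → P ∈ (d k : Ultrafilter ℕ)) ∧
      ∀ y : A, P ∈ (y : Ultrafilter ℕ) → y ∈ U := by
    intro k
    by_cases hk : d k ∈ U
    · obtain ⟨P, h1, h2⟩ := key U hU _ hk
      exact ⟨P, fun _ => h1, h2⟩
    · exact ⟨∅, fun h => absurd h hk, fun y hy => (Ultrafilter.empty_notMem hy).elim⟩
  have hQ : ∀ k, ∃ P : Set ℕ, (d k ∈ V → P ∈ (d k : Ultrafilter ℕ)) ∧
      ∀ y : A, P ∈ (y : Ultrafilter ℕ) → y ∈ V := by
    intro k
    by_cases hk : d k ∈ V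
    · obtain ⟨P, h1, h2⟩ := key V hV _ hk
      exact ⟨P, fun _ => h1, h2⟩
    · exact ⟨∅, fun h => absurd h hk, fun y hy => (Ultrafilter.empty_notMem hy).elim⟩
  choose P hP1 hP2 using hP
  choose Q hQ1 hQ2 using hQ
  have notfin : ∀ (p : Ultrafilter ℕ) (R : ℕ → Set ℕ), (∀ i, R i ∉ p) → ∀ n,
      (⋃ i ∈ Finset.range n, R i) ∉ p := by
    intro p R hR n
    induction n with
    | zero => simp
    | succ n ih =>
      rw [Finset.range_add_one, Finset.set_biUnion_insert, Ultrafilter.union_mem_iff]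
      push Not
      exact ⟨hR n, ih⟩
  refine ⟨⋃ k, (P k \ ⋃ i ∈ Finset.range (k + 1), Q i), ?_, ?_⟩
  · intro k hk
    have h1 : (⋃ i ∈ Finset.range (k + 1), Q i) ∉ (d k : Ultrafilter ℕ) := by
      refine notfin _ Q (fun i hi => ?_) _
      exact Set.disjoint_left.1 hUV hk (hQ2 i _ hi)
    have h2 : (P k \ ⋃ i ∈ Finset.range (k + 1), Q i) ∈ (d k : Ultrafilter ℕ) :=
      inter_mem (hP1 k hk) (Ultrafilter.compl_mem_iff_notMem.2 h1)
    exact mem_of_superset h2 (Set.subset_iUnion (fun k => P k \ ⋃ i ∈ Finset.range (k + 1), Q i) k)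
  · intro l hl hS
    have h1 : (⋃ i ∈ Finset.range l, P i) ∉ (d l : Ultrafilter ℕ) := by
      refine notfin _ P (fun i hi => ?_) _
      exact Set.disjoint_left.1 hUV (hP2 i _ hi) hl
    have h2 : (Q l \ ⋃ i ∈ Finset.range l, P i) ∈ (d l : Ultrafilter ℕ) :=
      inter_mem (hQ1 l hl) (Ultrafilter.compl_mem_iff_notMem.2 h1)
    have h3 := inter_mem h2 hS
    have h4 : ((Q l \ ⋃ i ∈ Finset.range l, P i) ∩
        ⋃ k, (P k \ ⋃ i ∈ Finset.range (k + 1), Q i)) = ∅ := by
      ext z
      simp only [Set.mem_inter_iff, Set.mem_sdiff, Set.mem_iUnion, Finset.mem_range, not_exists,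
        Set.mem_empty_iff_false, iff_false, not_and]
      rintro ⟨hz1, hz2⟩ k hz3 hz4
      rcases Nat.lt_or_ge k l with hkl | hkl
      · exact hz2 k hkl hz3
      · exact hz4 l (by omega) hz1
    change _ ∩ _ ∈ (d l : Ultrafilter ℕ) at h3
    rw [h4] at h3
    exact Ultrafilter.empty_notMem h3

theorem extremallyDisconnected_of_separable {A : Set (Ultrafilter ℕ)} (d : ℕ → A)
    (hd : DenseRange d) : ExtremallyDisconnected A := by
  refine ⟨fun U hU => ?_⟩
  have hV : IsOpen (closure U)ᶜ := isClosed_closure.isOpen_compl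
  have hUV : Disjoint U (closure U)ᶜ :=
    Set.disjoint_compl_right_iff_subset.2 subset_closure
  obtain ⟨S, hS1, hS2⟩ := clopen_sep d U _ hU hV hUV
  let W : Set A := {x | S ∈ (x : Ultrafilter ℕ)}
  have hWo : IsOpen W := (ultrafilter_isOpen_basic S).preimage continuous_subtype_val
  have hWc : IsClosed W := (ultrafilter_isClosed_basic S).preimage continuous_subtype_val
  have h1 : closure U ⊆ W := by
    refine closure_minimal ?_ hWc
    intro x hx
    by_contra hxW
    obtain ⟨k, hk⟩ := hd.exists_mem_open (hU.inter hWc.isOpen_compl) ⟨x, hx, hxW⟩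
    exact hk.2 (hS1 k hk.1)
  have h2 : (closure U)ᶜ ⊆ Wᶜ := by
    intro x hx hxW
    obtain ⟨k, hk⟩ := hd.exists_mem_open (hV.inter hWo) ⟨x, hx, hxW⟩
    exact hS2 k hk.1 hk.2
  have h3 : closure U = W := h1.antisymm (Set.compl_subset_compl.1 h2)
  rw [h3]
  exact hWo

/-- Gleason: a nonempty l-embedded subspace of `βω` is (abstractly) a retract of `βω`. -/
theorem exists_retract {A : Set (Ultrafilter ℕ)} (hA : IsLEmbedded A) (hne : A.Nonempty) :
    ∃ (s : A → Ultrafilter ℕ) (π : Ultrafilter ℕ → A), Continuous s ∧ Continuous π ∧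
      ∀ a, π (s a) = a := by
  have hcl := isClosed_of_lEmbedded hA
  have : CompactSpace A := isCompact_iff_compactSpace.1 hcl.isCompact
  obtain ⟨D, hDc, hD⟩ := separable_of_lEmbedded hA
  have : Nonempty A := hne.to_subtype
  obtain ⟨d, rfl⟩ := hDc.exists_eq_range hD.nonempty
  have hED : ExtremallyDisconnected A := extremallyDisconnected_of_separable d hD
  have hπc : Continuous (Ultrafilter.extend d) := continuous_ultrafilter_extend d
  have hπs : Function.Surjective (Ultrafilter.extend d) := by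
    have hc : IsClosed (Set.range (Ultrafilter.extend d)) := (isCompact_range hπc).isClosed
    have hsub : Set.range d ⊆ Set.range (Ultrafilter.extend d) := by
      rintro _ ⟨n, rfl⟩
      exact ⟨pure n, ultrafilter_extend_pure d n⟩
    rw [← Set.range_eq_univ, ← hc.closure_eq]
    exact (Dense.mono hsub hD).closure_eq
  obtain ⟨s, hs, hs'⟩ := CompactT2.ExtremallyDisconnected.projective (A := A) (continuous_id (X := A))
    hπc hπs
  exact ⟨s, Ultrafilter.extend d, hs, hπc, fun a => congrFun hs' a⟩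



section decomp

variable {X Y A : Type*} [TopologicalSpace X] [TopologicalSpace Y] [TopologicalSpace A]

/-- auxiliary formula -/
def PhiF (H : X ⊕ Y ≃ₜ Y) (e : Y → Y) (π : X → A) (k : Y ⊕ A → ℝ) : X ⊕ Y → ℝ
  | Sum.inl x => k (Sum.inr (π x)) + k (Sum.inl (H (Sum.inl x))) - k (Sum.inl (e (H (Sum.inl x))))
  | Sum.inr z => k (Sum.inl (e z)) + k (Sum.inl (H (Sum.inr z))) - k (Sum.inl (e (H (Sum.inr z))))

/-- auxiliary formula -/
def PhiG (H : X ⊕ Y ≃ₜ Y) (e : Y → Y) (s : A → X) (h : Y → ℝ) : Y ⊕ A → ℝ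
  | Sum.inl y => h y - h (e y) + h (H (Sum.inr (e y)))
  | Sum.inr a => h (H (Sum.inl (s a)))

theorem decomposition (H : X ⊕ Y ≃ₜ Y) (e : Y → Y) (s : A → X) (π : X → A)
    (he : Continuous e) (hs : Continuous s) (hπ : Continuous π)
    (hπs : ∀ a, π (s a) = a) (hee : ∀ y, e (e y) = e y)
    (hi : ∀ x, e (H (Sum.inl x)) = H (Sum.inl (s (π x))))
    (hu : ∀ y, e (H (Sum.inr y)) = H (Sum.inr (e y))) :
    LEquivalent Y (Y ⊕ A) := by
  let G : Cp Y →L[ℝ] Cp (Y ⊕ A) := mkMap
    { toFun := fun h => PhiG H e s (h : Y → ℝ)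
      map_add' := by
        intro f g
        funext z
        rcases z with y | a
        · change (f.1 y + g.1 y) - (f.1 (e y) + g.1 (e y)) + (f.1 _ + g.1 _) =
            (f.1 y - f.1 (e y) + f.1 (H (Sum.inr (e y)))) + (g.1 y - g.1 (e y) + g.1 (H (Sum.inr (e y))))
          ring
        · rfl
      map_smul' := by
        intro c f
        funext z
        rcases z with y | a
        · change c * f.1 y - c * f.1 (e y) + c * f.1 _ =
            c * (f.1 y - f.1 (e y) + f.1 (H (Sum.inr (e y))))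
          ring
        · rfl }
    (by
      intro h
      have hc : Continuous (h : Y → ℝ) := h.2
      refine continuous_sum_dom.2 ⟨?_, ?_⟩
      · exact (hc.sub (hc.comp he)).add (hc.comp (H.continuous.comp (continuous_inr.comp he)))
      · exact hc.comp (H.continuous.comp (continuous_inl.comp hs)))
    (by
      have hev : ∀ y : Y, Continuous fun h : Cp Y => (h : Y → ℝ) y := fun y =>
        (continuous_apply y).comp continuous_subtype_val
      intro z
      rcases z with y | a
      · exact ((hev _).sub (hev _)).add (hev _)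
      · exact hev _)
  let F : Cp (Y ⊕ A) →L[ℝ] Cp Y := mkMap
    { toFun := fun k y => PhiF H e π (k : Y ⊕ A → ℝ) (H.symm y)
      map_add' := by
        intro f g
        funext y
        change PhiF H e π (f.1 + g.1) (H.symm y) =
          PhiF H e π f.1 (H.symm y) + PhiF H e π g.1 (H.symm y)
        generalize H.symm y = w
        rcases w with x | z
        · simp only [PhiF, Pi.add_apply]; ring
        · simp only [PhiF, Pi.add_apply]; ring
      map_smul' := by
        intro c f
        funext y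
        change PhiF H e π (c • f.1) (H.symm y) = c * PhiF H e π f.1 (H.symm y)
        generalize H.symm y = w
        rcases w with x | z
        · simp only [PhiF, Pi.smul_apply, smul_eq_mul]; ring
        · simp only [PhiF, Pi.smul_apply, smul_eq_mul]; ring }
    (by
      intro k
      have hc : Continuous (k : Y ⊕ A → ℝ) := k.2
      refine Continuous.comp (g := PhiF H e π (k : Y ⊕ A → ℝ)) ?_ H.symm.continuous
      refine continuous_sum_dom.2 ⟨?_, ?_⟩
      · exact ((hc.comp (continuous_inr.comp hπ)).add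
          (hc.comp (continuous_inl.comp (H.continuous.comp continuous_inl)))).sub
          (hc.comp (continuous_inl.comp (he.comp (H.continuous.comp continuous_inl))))
      · exact ((hc.comp (continuous_inl.comp he)).add
          (hc.comp (continuous_inl.comp (H.continuous.comp continuous_inr)))).sub
          (hc.comp (continuous_inl.comp (he.comp (H.continuous.comp continuous_inr)))))
    (by
      have hev : ∀ y : Y ⊕ A, Continuous fun h : Cp (Y ⊕ A) => (h : Y ⊕ A → ℝ) y := fun y =>
        (continuous_apply y).comp continuous_subtype_val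
      intro y
      change Continuous fun k : Cp (Y ⊕ A) => PhiF H e π (k : Y ⊕ A → ℝ) (H.symm y)
      generalize H.symm y = w
      rcases w with x | z
      · exact ((hev _).add (hev _)).sub (hev _)
      · exact ((hev _).add (hev _)).sub (hev _))
  have hG : ∀ (h : Cp Y) (z : Y ⊕ A), (G h : Y ⊕ A → ℝ) z = PhiG H e s (h : Y → ℝ) z :=
    fun h z => rfl
  have hF : ∀ (k : Cp (Y ⊕ A)) (y : X ⊕ Y),
      (F k : Y → ℝ) (H y) = PhiF H e π (k : Y ⊕ A → ℝ) y := by
    intro k y
    have : H.symm (H y) = y := H.symm_apply_apply y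
    conv_rhs => rw [← this]
    rfl
  refine ⟨ContinuousLinearEquiv.equivOfInverse G F ?_ ?_⟩
  · intro h
    apply Subtype.ext
    funext y
    obtain ⟨w, rfl⟩ := H.surjective y
    rw [hF]
    rcases w with x | z
    · simp only [PhiF, hG, PhiG, hi, hπs]
      ring
    · simp only [PhiF, hG, PhiG, hu, hee]
      ring
  · intro k
    apply Subtype.ext
    funext z
    rw [hG]
    rcases z with y | a
    · obtain ⟨w, rfl⟩ := H.surjective y
      rcases w with x | z
      · simp only [PhiG, hF, PhiF, hi, hu, hπs]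
        ring
      · simp only [PhiG, hF, PhiF, hu, hee]
        ring
    · simp only [PhiG, hF, PhiF, hi, hπs]
      ring

end decomp


theorem LEquivalent.of_homeo {X Y : Type*} [TopologicalSpace X] [TopologicalSpace Y]
    (h : X ≃ₜ Y) : LEquivalent X Y := by
  let C1 : Cp X →L[ℝ] Cp Y := mkMap
      { toFun := fun f y => (f : X → ℝ) (h.symm y)
        map_add' := fun f g => rfl
        map_smul' := fun c f => rfl }
      (fun f => by
        have hc : Continuous (f : X → ℝ) := f.2
        exact hc.comp h.symm.continuous)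
      (fun y => show Continuous (fun f : Cp X => (f : X → ℝ) (h.symm y)) from
        (continuous_apply _).comp continuous_subtype_val)
  let C2 : Cp Y →L[ℝ] Cp X := mkMap
      { toFun := fun f x => (f : Y → ℝ) (h x)
        map_add' := fun f g => rfl
        map_smul' := fun c f => rfl }
      (fun f => by
        have hc : Continuous (f : Y → ℝ) := f.2
        exact hc.comp h.continuous)
      (fun x => show Continuous (fun f : Cp Y => (f : Y → ℝ) (h x)) from
        (continuous_apply _).comp continuous_subtype_val)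
  refine ⟨ContinuousLinearEquiv.equivOfInverse C1 C2 ?_ ?_⟩
  · intro f
    apply Subtype.ext
    funext x
    change (f : X → ℝ) (h.symm (h x)) = _
    rw [h.symm_apply_apply]
  · intro f
    apply Subtype.ext
    funext x
    change (f : Y → ℝ) (h (h.symm x)) = _
    rw [h.apply_symm_apply]

theorem LEquivalent.trans {X Y Z : Type*} [TopologicalSpace X] [TopologicalSpace Y]
    [TopologicalSpace Z] : LEquivalent X Y → LEquivalent Y Z → LEquivalent X Z :=
  fun ⟨a⟩ ⟨b⟩ => ⟨a.trans b⟩

theorem continuous_umap {α β : Type*} (f : α → β) :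
    Continuous (Ultrafilter.map f : Ultrafilter α → Ultrafilter β) := by
  refine continuous_generateFrom_iff.2 ?_
  rintro _ ⟨s, rfl⟩
  exact ultrafilter_isOpen_basic (f ⁻¹' s)

theorem umap_injective {α β : Type*} {f : α → β} (hf : Function.Injective f) :
    Function.Injective (Ultrafilter.map f : Ultrafilter α → Ultrafilter β) := by
  intro x y hxy
  apply Ultrafilter.coe_injective
  have h := congrArg (fun u : Ultrafilter β => (u : Filter β)) hxy
  exact Filter.map_injective hf h

theorem umap_pure {α β : Type*} (f : α → β) (a : α) :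
    Ultrafilter.map f (pure a) = pure (f a) := by
  apply Ultrafilter.coe_injective
  exact Filter.map_pure f a

theorem umap_umap {α β γ : Type*} (f : α → β) (g : β → γ) (x : Ultrafilter α) :
    Ultrafilter.map g (Ultrafilter.map f x) = Ultrafilter.map (g ∘ f) x := rfl

theorem umap_eq_self {α : Type*} (f : α → α) (x : Ultrafilter α) (S : Set α) (hS : S ∈ x)
    (h : ∀ a ∈ S, f a = a) : Ultrafilter.map f x = x := by
  apply Ultrafilter.coe_injective
  change Filter.map f (x : Filter α) = x
  have : f =ᶠ[(x : Filter α)] id := Filter.mem_of_superset hS h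
  rw [Filter.map_congr this, Filter.map_id]

/-- `p ↦ (p.1 + 1, p.2)` -/
def up (p : ℕ × ℕ) : ℕ × ℕ := (p.1 + 1, p.2)

/-- `p ↦ (p.1 - 1, p.2)` -/
def dn (p : ℕ × ℕ) : ℕ × ℕ := (p.1 - 1, p.2)

theorem up_injective : Function.Injective up := by
  rintro ⟨a, b⟩ ⟨c, d⟩ h
  simp only [up, Prod.mk.injEq] at h ⊢
  omega

/-- the continuous bijection `βω ⊕ β(ω × ω) → β(ω × ω)` -/
def Hmap : Ultrafilter ℕ ⊕ Ultrafilter (ℕ × ℕ) → Ultrafilter (ℕ × ℕ) :=
  Sum.elim (Ultrafilter.map (Prod.mk 0)) (Ultrafilter.map up)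

theorem Hmap_continuous : Continuous Hmap :=
  continuous_sum_dom.2 ⟨continuous_umap _, continuous_umap _⟩

theorem Hmap_bijective : Function.Bijective Hmap := by
  have hd : ∀ (x : Ultrafilter ℕ) (y : Ultrafilter (ℕ × ℕ)),
      Ultrafilter.map (Prod.mk 0) x ≠ Ultrafilter.map up y := by
    intro x y h
    have h1 : {p : ℕ × ℕ | p.1 = 0} ∈ Ultrafilter.map (Prod.mk 0) x := by
      rw [Ultrafilter.mem_map]
      exact Filter.mem_of_superset Filter.univ_mem (fun a _ => rfl)
    have h2 : {p : ℕ × ℕ | p.1 ≠ 0} ∈ Ultrafilter.map up y := by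
      rw [Ultrafilter.mem_map]
      exact Filter.mem_of_superset Filter.univ_mem (fun a _ => Nat.succ_ne_zero _)
    rw [← h] at h2
    exact Ultrafilter.compl_notMem_iff.2 h1 h2
  constructor
  · rintro (x | x) (y | y) h
    · exact congrArg _ (umap_injective (Prod.mk_right_injective 0) h)
    · exact absurd h (hd x y)
    · exact absurd h.symm (hd y x)
    · exact congrArg _ (umap_injective up_injective h)
  · intro y
    rcases Ultrafilter.mem_or_compl_mem y {p : ℕ × ℕ | p.1 = 0} with h | h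
    · refine ⟨Sum.inl (Ultrafilter.map Prod.snd y), ?_⟩
      change Ultrafilter.map _ (Ultrafilter.map _ y) = y
      rw [umap_umap]
      refine umap_eq_self _ _ _ h ?_
      rintro ⟨a, b⟩ hab
      change a = 0 at hab
      subst hab
      rfl
    · refine ⟨Sum.inr (Ultrafilter.map dn y), ?_⟩
      change Ultrafilter.map _ (Ultrafilter.map _ y) = y
      rw [umap_umap]
      refine umap_eq_self _ _ _ h ?_
      rintro ⟨a, b⟩ hab
      change a ≠ 0 at hab
      simp only [Function.comp, up, dn, Prod.mk.injEq, and_true]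
      omega

noncomputable def Hhomeo : Ultrafilter ℕ ⊕ Ultrafilter (ℕ × ℕ) ≃ₜ Ultrafilter (ℕ × ℕ) :=
  Continuous.homeoOfEquivCompactToT2 (f := Equiv.ofBijective Hmap Hmap_bijective) Hmap_continuous

theorem Hhomeo_inl (x : Ultrafilter ℕ) : Hhomeo (Sum.inl x) = Ultrafilter.map (Prod.mk 0) x := rfl

theorem Hhomeo_inr (x : Ultrafilter (ℕ × ℕ)) : Hhomeo (Sum.inr x) = Ultrafilter.map up x := rfl

/-- `β(ω × ω) ≃ βω` -/
noncomputable def pairHomeo : Ultrafilter (ℕ × ℕ) ≃ₜ Ultrafilter ℕ :=
  Continuous.homeoOfEquivCompactToT2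
    (f := { toFun := Ultrafilter.map Nat.pairEquiv
            invFun := Ultrafilter.map Nat.pairEquiv.symm
            left_inv := fun x => by
              rw [umap_umap]
              exact umap_eq_self _ _ Set.univ Filter.univ_mem
                (fun a _ => Nat.pairEquiv.symm_apply_apply a)
            right_inv := fun x => by
              rw [umap_umap]
              exact umap_eq_self _ _ Set.univ Filter.univ_mem
                (fun a _ => Nat.pairEquiv.apply_symm_apply a) })
    (continuous_umap _)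

theorem lequiv_of_retract {A : Type} [TopologicalSpace A] (s : A → Ultrafilter ℕ)
    (π : Ultrafilter ℕ → A) (hs : Continuous s) (hπ : Continuous π) (hπs : ∀ a, π (s a) = a) :
    LEquivalent (Ultrafilter (ℕ × ℕ)) (Ultrafilter (ℕ × ℕ) ⊕ A) := by
  let e : Ultrafilter (ℕ × ℕ) → Ultrafilter (ℕ × ℕ) := Ultrafilter.extend
    (fun p : ℕ × ℕ => Ultrafilter.map (Prod.mk p.1) (s (π (pure p.2))))
  have he : Continuous e := continuous_ultrafilter_extend _
  have hep : ∀ p : ℕ × ℕ, e (pure p) = Ultrafilter.map (Prod.mk p.1) (s (π (pure p.2))) :=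
    fun p => ultrafilter_extend_pure _ p
  have key : ∀ (m : ℕ) (x : Ultrafilter ℕ), e (Ultrafilter.map (Prod.mk m) x) =
      Ultrafilter.map (Prod.mk m) (s (π x)) := by
    intro m
    refine fun x => congrFun (DenseRange.equalizer (f := (pure : ℕ → Ultrafilter ℕ))
      denseRange_pure (he.comp (continuous_umap _))
      ((continuous_umap _).comp (hs.comp hπ)) ?_) x
    funext j
    simp only [Function.comp]
    rw [umap_pure, hep]
  have hu : ∀ y, e (Ultrafilter.map up y) = Ultrafilter.map up (e y) := by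
    refine fun x => congrFun (DenseRange.equalizer (f := (pure : ℕ × ℕ → Ultrafilter (ℕ × ℕ)))
      denseRange_pure (he.comp (continuous_umap _)) ((continuous_umap _).comp he) ?_) x
    funext p
    simp only [Function.comp]
    rw [umap_pure, hep, hep, umap_umap]
    rfl
  have hee : ∀ y, e (e y) = e y := by
    refine fun x => congrFun (DenseRange.equalizer (f := (pure : ℕ × ℕ → Ultrafilter (ℕ × ℕ)))
      denseRange_pure (he.comp he) he ?_) x
    funext p
    simp only [Function.comp]
    rw [hep, key, hπs]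
  exact decomposition Hhomeo e s π he hs hπ hπs hee (fun x => key 0 x) hu

theorem lstable : IsLStable (Ultrafilter ℕ) := by
  intro A hA
  rcases A.eq_empty_or_nonempty with rfl | hne
  · exact LEquivalent.of_homeo (Homeomorph.sumEmpty _ _).symm
  · obtain ⟨s, π, hs, hπ, hπs⟩ := exists_retract hA hne
    exact ((LEquivalent.of_homeo pairHomeo.symm).trans (lequiv_of_retract s π hs hπ hπs)).trans
      (LEquivalent.of_homeo (pairHomeo.sumCongr (Homeomorph.refl _)))

theorem countable_exception {ι : Type*} (r : Set ℕ → ℝ) (B : ℝ) (hB : ∀ S, |r S| ≤ B)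
    (hadd : ∀ S T, Disjoint S T → r (S ∪ T) = r S + r T) (hfin : ∀ S, S.Finite → r S = 0)
    (A : ι → Set ℕ) (hA : ∀ x y, x ≠ y → (A x ∩ A y).Finite) :
    {x | r (A x) ≠ 0}.Countable := by
  classical
  have hsum : ∀ Φ : Finset ι, r (⋃ x ∈ Φ, A x) = ∑ x ∈ Φ, r (A x) := by
    intro Φ
    induction Φ using Finset.induction_on with
    | empty => simpa using hfin ∅ Set.finite_empty
    | insert y Φ hy ih =>
      rw [Finset.set_biUnion_insert, Finset.sum_insert hy, ← ih]
      set U := ⋃ x ∈ Φ, A x with hU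
      have h1 : A y ∪ U = A y ∪ (U \ A y) := by rw [Set.union_sdiff_self]
      have h2 : r (A y ∪ U) = r (A y) + r (U \ A y) := by
        rw [h1]; exact hadd _ _ Set.disjoint_sdiff_right
      have h3 : r U = r (U \ A y) + r (U ∩ A y) := by
        conv_lhs => rw [← Set.sdiff_union_inter U (A y)]
        exact hadd _ _ (Set.disjoint_sdiff_left.mono_right Set.inter_subset_right)
      have h4 : (U ∩ A y).Finite := by
        rw [hU, Set.iUnion₂_inter]
        refine Set.Finite.biUnion Φ.finite_toSet fun x hx => hA x y ?_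
        rintro rfl
        exact hy hx
      rw [h2, h3, hfin _ h4, add_zero]
  have hpos : ∀ (c : ℝ) (hc : c = 1 ∨ c = -1) (N : ℕ), {x | 1 / ((N : ℝ) + 1) ≤ c * r (A x)}.Finite := by
    intro c hc N
    by_contra hinf
    obtain ⟨m, hm⟩ := exists_nat_gt (B * ((N : ℝ) + 1))
    obtain ⟨Φ, hΦ, hcard⟩ := Set.Infinite.exists_subset_card_eq hinf m
    have h1 : (m : ℝ) * (1 / ((N : ℝ) + 1)) ≤ ∑ x ∈ Φ, c * r (A x) := by
      rw [← hcard, ← nsmul_eq_mul]
      exact Finset.card_nsmul_le_sum _ _ _ fun x hx => hΦ hx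
    rw [← Finset.mul_sum, ← hsum] at h1
    have h2 := hB (⋃ x ∈ Φ, A x)
    have h3 : c * r (⋃ x ∈ Φ, A x) ≤ B := by
      rcases hc with rfl | rfl
      · rw [one_mul]; exact (le_abs_self _).trans h2
      · rw [neg_one_mul]; exact (neg_le_abs _).trans h2
    have hN : (0 : ℝ) < (N : ℝ) + 1 := by positivity
    have h4 : (m : ℝ) * (1 / ((N : ℝ) + 1)) ≤ B := h1.trans h3
    rw [mul_one_div, div_le_iff₀ hN] at h4
    linarith
  have hcover : {x | r (A x) ≠ 0} ⊆ ⋃ N : ℕ, ({x | 1 / ((N : ℝ) + 1) ≤ 1 * r (A x)} ∪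
      {x | 1 / ((N : ℝ) + 1) ≤ (-1) * r (A x)}) := by
    intro x hx
    obtain ⟨N, hN⟩ := exists_nat_one_div_lt (abs_pos.2 hx)
    refine Set.mem_iUnion.2 ⟨N, ?_⟩
    rcases abs_cases (r (A x)) with ⟨h, -⟩ | ⟨h, -⟩
    · left
      change (1 : ℝ) / ((N : ℝ) + 1) ≤ 1 * r (A x)
      rw [one_mul, ← h]
      exact hN.le
    · right
      change (1 : ℝ) / ((N : ℝ) + 1) ≤ (-1) * r (A x)
      rw [neg_one_mul, ← h]
      exact hN.le
  refine Set.Countable.mono hcover (Set.countable_iUnion fun N => ?_)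
  exact ((hpos 1 (Or.inl rfl) N).union (hpos (-1) (Or.inr rfl) N)).countable

/-- an almost disjoint family indexed by `ℕ → Bool` -/
def adf (x : ℕ → Bool) : Set ℕ :=
  Set.range fun n : ℕ => Encodable.encode (List.ofFn fun i : Fin n => x i)

theorem adf_infinite (x : ℕ → Bool) : (adf x).Infinite := by
  refine Set.infinite_range_of_injective ?_
  intro n m h
  have h1 := Encodable.encode_injective h
  have h2 := congrArg List.length h1
  simpa using h2

theorem adf_ad (x y : ℕ → Bool) (hxy : x ≠ y) : (adf x ∩ adf y).Finite := by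
  obtain ⟨i, hi⟩ := Function.ne_iff.1 hxy
  refine Set.Finite.subset ((Set.finite_Iic i).image
    (fun n : ℕ => Encodable.encode (List.ofFn fun i : Fin n => x i))) ?_
  rintro _ ⟨⟨n, rfl⟩, ⟨m, hm⟩⟩
  refine ⟨n, ?_, rfl⟩
  have h1 := Encodable.encode_injective hm
  have h2 := congrArg List.length h1
  have h3 : m = n := by simpa using h2
  subst h3
  by_contra hlt
  have h4 : i < m := not_le.1 hlt
  have h5 := congrFun (List.ofFn_injective h1) ⟨i, h4⟩
  exact hi h5.symm

theorem exists_good (g : ℕ → Ultrafilter ℕ → ℝ) (hg : ∀ j, Continuous (g j))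
    (E : Ultrafilter ℕ → Finset ℕ) (hE : ∀ p j, j ∉ E p → g j p = 0) (C : ℝ)
    (hC : ∀ p (Φ : Finset ℕ), ∑ j ∈ Φ, |g j p| ≤ C) (F : Set (Ultrafilter ℕ)) (hF : F.Countable) :
    ∃ (S : Set ℕ) (h : Ultrafilter ℕ → ℝ), S.Infinite ∧ Continuous h ∧
      ∀ p ∈ F, h p = ∑ j ∈ E p, S.indicator (fun j => g j p) j := by
  classical
  let σ : Set ℕ → Ultrafilter ℕ → ℝ := fun S p => ∑ j ∈ E p, S.indicator (fun j => g j p) j
  have hσ : ∀ S p, |σ S p| ≤ C := by
    intro S p
    refine (Finset.abs_sum_le_sum_abs _ _).trans (le_trans ?_ (hC p (E p)))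
    refine Finset.sum_le_sum fun j _ => ?_
    by_cases hj : j ∈ S
    · rw [Set.indicator_of_mem hj]
    · rw [Set.indicator_of_notMem hj, abs_zero]; exact abs_nonneg _
  have hC0 : 0 ≤ C := (abs_nonneg _).trans (hσ ∅ (pure 0))
  let h : Set ℕ → Ultrafilter ℕ → ℝ := fun S p =>
    ((Ultrafilter.extend (fun k : ℕ => (⟨σ S (pure k), abs_le.1 (hσ S (pure k))⟩ : Set.Icc (-C) C)) p :
      Set.Icc (-C) C) : ℝ)
  have hh : ∀ S, Continuous (h S) := fun S =>
    continuous_subtype_val.comp (continuous_ultrafilter_extend _)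
  have hhp : ∀ S (k : ℕ), h S (pure k) = σ S (pure k) := by
    intro S k
    simp only [h]
    rw [ultrafilter_extend_pure]
  have hhC : ∀ S p, |h S p| ≤ C := fun S p => abs_le.2
    (Ultrafilter.extend (fun k : ℕ => (⟨σ S (pure k), abs_le.1 (hσ S (pure k))⟩ : Set.Icc (-C) C)) p).2
  have hσadd : ∀ S T, Disjoint S T → ∀ p, σ (S ∪ T) p = σ S p + σ T p := by
    intro S T hST p
    simp only [σ]
    rw [← Finset.sum_add_distrib]
    refine Finset.sum_congr rfl fun j _ => ?_
    rw [Set.indicator_union_of_disjoint hST]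
  have hσfin : ∀ S : Set ℕ, S.Finite → Continuous (σ S) := by
    intro S hS
    have : σ S = fun p => ∑ j ∈ hS.toFinset, g j p := by
      funext p
      simp only [σ]
      rw [← Finset.sum_filter_add_sum_filter_not hS.toFinset (fun j => j ∈ E p)]
      have h0 : ∑ j ∈ hS.toFinset with j ∉ E p, g j p = 0 := by
        refine Finset.sum_eq_zero fun j hj => hE p j (Finset.mem_filter.1 hj).2
      rw [h0, add_zero]
      have h1 : ∀ j, S.indicator (fun j => g j p) j = if j ∈ S then g j p else 0 := fun j => rfl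
      simp only [h1]
      rw [← Finset.sum_filter]
      refine Finset.sum_congr ?_ fun _ _ => rfl
      ext j
      simp only [Finset.mem_filter, Set.Finite.mem_toFinset]
      tauto
    rw [this]
    exact continuous_finsetSum _ fun j _ => hg j
  have hdense : ∀ u v : Ultrafilter ℕ → ℝ, Continuous u → Continuous v →
      (∀ k : ℕ, u (pure k) = v (pure k)) → ∀ p, u p = v p := by
    intro u v hu hv huv p
    exact congrFun (DenseRange.equalizer (f := (pure : ℕ → Ultrafilter ℕ)) denseRange_pure hu hv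
      (funext huv)) p
  let r : Ultrafilter ℕ → Set ℕ → ℝ := fun p S => h S p - σ S p
  have hcount : ∀ p, {x | r p (adf x) ≠ 0}.Countable := by
    intro p
    refine countable_exception (r p) (C + C) ?_ ?_ ?_ adf adf_ad
    · intro S
      exact (abs_sub _ _).trans (add_le_add (hhC S p) (hσ S p))
    · intro S T hST
      have h1 : h (S ∪ T) p = h S p + h T p := by
        refine hdense _ _ (hh _) ((hh S).add (hh T)) (fun k => ?_) p
        rw [Pi.add_apply, hhp, hhp, hhp, hσadd S T hST]
      simp only [r]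
      rw [h1, hσadd S T hST]
      ring
    · intro S hS
      have h1 : h S p = σ S p := hdense _ _ (hh _) (hσfin S hS) (fun k => hhp S k) p
      simp only [r]
      rw [h1, sub_self]
  have hbad : (⋃ p ∈ F, {x | r p (adf x) ≠ 0}).Countable := hF.biUnion fun p _ => hcount p
  have hunc : Uncountable (ℕ → Bool) := by
    rw [← Cardinal.aleph0_lt_mk_iff]
    simpa using Cardinal.cantor Cardinal.aleph0
  obtain ⟨x, hx⟩ : ∃ x, x ∉ ⋃ p ∈ F, {x | r p (adf x) ≠ 0} := by
    by_contra hcon
    push Not at hcon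
    have : (Set.univ : Set (ℕ → Bool)).Countable := hbad.mono fun x _ => hcon x
    exact Set.not_countable_univ this
  refine ⟨adf x, h (adf x), adf_infinite x, hh _, ?_⟩
  intro p hp
  have h1 : r p (adf x) = 0 := by
    by_contra hne
    exact hx (Set.mem_biUnion hp hne)
  exact sub_eq_zero.1 h1


theorem pt_finite {X Y : Type*} [TopologicalSpace X] [TopologicalSpace Y] (T : Cp X →L[ℝ] Cp Y)
    (y : Y) : ∃ (F : Finset X) (a : X → ℝ), ∀ f : Cp X,
      (T f : Y → ℝ) y = ∑ x ∈ F, a x * (f : X → ℝ) x := by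
  let ev : Cp Y →L[ℝ] ℝ := (ContinuousLinearMap.proj y).comp (Cp Y).subtypeL
  obtain ⟨F, a, h⟩ := dual_finite (ev.comp T)
  exact ⟨F, a, fun f => h f⟩

/-- indicator of an isolated point of `ω + 1` -/
noncomputable def del (j : ℕ) : Cp ℕ∞ :=
  ⟨({(j : ℕ∞)} : Set ℕ∞).indicator (fun _ => 1), by
    have ho : IsOpen ({(j : ℕ∞)} : Set ℕ∞) := ENat.isOpen_singleton (ENat.natCast_ne_top j)
    exact (IsClopen.continuous_indicator ⟨isClosed_singleton, ho⟩ continuous_const)⟩

theorem del_apply (j : ℕ) (n : ℕ∞) : (del j : ℕ∞ → ℝ) n = if n = j then 1 else 0 := by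
  classical
  change ({(j : ℕ∞)} : Set ℕ∞).indicator (fun _ => (1 : ℝ)) n = _
  rw [Set.indicator_apply]
  simp only [Set.mem_singleton_iff]

theorem no_factor (J : Cp ℕ∞ →L[ℝ] Cp (Ultrafilter ℕ)) (R : Cp (Ultrafilter ℕ) →L[ℝ] Cp ℕ∞)
    (hRJ : ∀ f, R (J f) = f) : False := by
  classical
  choose B b hB using fun p : Ultrafilter ℕ => pt_finite J p
  choose F a hF using fun n : ℕ∞ => pt_finite R n
  let g : ℕ → Ultrafilter ℕ → ℝ := fun j => (J (del j) : Ultrafilter ℕ → ℝ)
  have hg : ∀ j, Continuous (g j) := fun j => (J (del j)).2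
  let E : Ultrafilter ℕ → Finset ℕ := fun p => (B p).image ENat.toNat
  have hE : ∀ p j, j ∉ E p → g j p = 0 := by
    intro p j hj
    simp only [g]
    rw [hB]
    refine Finset.sum_eq_zero fun i hi => ?_
    rw [del_apply, if_neg, mul_zero]
    rintro rfl
    exact hj (Finset.mem_image.2 ⟨_, hi, ENat.toNat_natCast j⟩)
  -- uniform bound
  obtain ⟨C, hC⟩ : ∃ C : ℝ, ∀ (p : Ultrafilter ℕ) (Φ : Finset ℕ), ∑ j ∈ Φ, |g j p| ≤ C := by
    let T : Ultrafilter ℕ → (C(ℕ∞, ℝ) →L[ℝ] ℝ) := fun p =>
      ∑ i ∈ B p, (b p i) • (ContinuousMap.evalCLM ℝ i)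
    have hT : ∀ p (f : C(ℕ∞, ℝ)), T p f = (J ⟨f, f.continuous⟩ : Ultrafilter ℕ → ℝ) p := by
      intro p f
      rw [hB]
      simp only [T, FunLike.coe_sum, Finset.sum_apply, FunLike.coe_smul,
        Pi.smul_apply, smul_eq_mul]
      rfl
    obtain ⟨C, hC⟩ := banach_steinhaus (g := T) (by
      intro f
      have hc : Continuous (J ⟨f, f.continuous⟩ : Ultrafilter ℕ → ℝ) :=
        (J ⟨f, f.continuous⟩).2
      obtain ⟨M, hM⟩ := isCompact_univ.exists_bound_of_continuousOn hc.continuousOn
      exact ⟨M, fun p => by rw [hT]; exact hM p (Set.mem_univ p)⟩)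
    refine ⟨C, fun p Φ => ?_⟩
    let f : Cp ℕ∞ := ∑ j ∈ Φ, (SignType.sign (g j p) : ℝ) • del j
    have hfv : ∀ n, (f : ℕ∞ → ℝ) n = ∑ j ∈ Φ, (SignType.sign (g j p) : ℝ) * (if n = (j : ℕ∞) then 1 else 0) := by
      intro n
      simp only [f]
      rw [Submodule.coe_sum, Finset.sum_apply]
      refine Finset.sum_congr rfl fun j _ => ?_
      rw [Submodule.coe_smul, Pi.smul_apply, smul_eq_mul, del_apply]
    let f' : C(ℕ∞, ℝ) := ⟨f, f.2⟩
    have hf1 : ‖f'‖ ≤ 1 := by
      rw [ContinuousMap.norm_le _ zero_le_one]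
      intro n
      change ‖(f : ℕ∞ → ℝ) n‖ ≤ 1
      rw [hfv]
      by_cases hn : ∃ j ∈ Φ, n = (j : ℕ∞)
      · obtain ⟨j, hj, rfl⟩ := hn
        rw [Finset.sum_eq_single j]
        · rw [if_pos rfl, mul_one, Real.norm_eq_abs]
          rcases SignType.trichotomy (SignType.sign (g j p)) with h | h | h <;> rw [h] <;> simp
        · intro i _ hij
          rw [if_neg, mul_zero]
          intro h
          exact hij (by exact_mod_cast h.symm)
        · intro h
          exact absurd hj h
      · rw [Finset.sum_eq_zero, norm_zero]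
        · exact zero_le_one
        · intro j hj
          rw [if_neg, mul_zero]
          intro h
          exact hn ⟨j, hj, h⟩
    have h1 : T p f' = ∑ j ∈ Φ, |g j p| := by
      rw [hT]
      have h2 : (⟨f', f'.continuous⟩ : Cp ℕ∞) = f := rfl
      rw [h2]
      simp only [f]
      rw [map_sum, Submodule.coe_sum, Finset.sum_apply]
      refine Finset.sum_congr rfl fun j _ => ?_
      rw [map_smul, Submodule.coe_smul, Pi.smul_apply, smul_eq_mul]
      exact sign_mul_self (g j p)
    rw [← h1]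
    calc T p f' ≤ ‖T p f'‖ := Real.le_norm_self _
      _ ≤ ‖T p‖ * ‖f'‖ := (T p).le_opNorm _
      _ ≤ C * 1 := mul_le_mul (hC p) hf1 (norm_nonneg _) ((norm_nonneg _).trans (hC p))
      _ = C := mul_one C
  obtain ⟨S, h, hS, hh, hhF⟩ := exists_good g hg E hE C hC (⋃ n, (F n : Set (Ultrafilter ℕ)))
    (Set.countable_iUnion fun n => (F n).countable_toSet)
  let H : Cp (Ultrafilter ℕ) := ⟨h, hh⟩
  have key : ∀ (n : ℕ∞) (W : Finset ℕ), (∀ q ∈ F n, E q ⊆ W) →
      (R H : ℕ∞ → ℝ) n = ∑ j ∈ W, S.indicator (fun j => (del j : ℕ∞ → ℝ) n) j := by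
    intro n W hW
    have h1 : (R H : ℕ∞ → ℝ) n = (R (∑ j ∈ W, S.indicator (fun j => J (del j)) j) : ℕ∞ → ℝ) n := by
      rw [hF, hF]
      refine Finset.sum_congr rfl fun q hq => ?_
      congr 1
      change h q = _
      rw [hhF q (Set.mem_iUnion.2 ⟨n, hq⟩), Submodule.coe_sum, Finset.sum_apply]
      rw [Finset.sum_subset (hW q hq)]
      · refine Finset.sum_congr rfl fun j _ => ?_
        by_cases hj : j ∈ S
        · rw [Set.indicator_of_mem hj, Set.indicator_of_mem hj]
        · rw [Set.indicator_of_notMem hj, Set.indicator_of_notMem hj]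
          rfl
      · intro j _ hj
        by_cases hjS : j ∈ S
        · rw [Set.indicator_of_mem hjS]
          exact hE q j hj
        · rw [Set.indicator_of_notMem hjS]
    rw [h1, map_sum, Submodule.coe_sum, Finset.sum_apply]
    refine Finset.sum_congr rfl fun j _ => ?_
    by_cases hj : j ∈ S
    · rw [Set.indicator_of_mem hj, Set.indicator_of_mem hj, hRJ]
    · rw [Set.indicator_of_notMem hj, Set.indicator_of_notMem hj, map_zero]
      rfl
  have htop : (R H : ℕ∞ → ℝ) ⊤ = 0 := by
    rw [key ⊤ ((F ⊤).biUnion E) (fun q hq => Finset.subset_biUnion_of_mem E hq)]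
    refine Finset.sum_eq_zero fun j _ => ?_
    by_cases hj : j ∈ S
    · rw [Set.indicator_of_mem hj, del_apply, if_neg (ENat.natCast_ne_top j).symm]
    · rw [Set.indicator_of_notMem hj]
  have hone : ∀ n ∈ S, (R H : ℕ∞ → ℝ) (n : ℕ∞) = 1 := by
    intro n hn
    rw [key n (insert n ((F n).biUnion E)) (fun q hq =>
      (Finset.subset_biUnion_of_mem E hq).trans (Finset.subset_insert _ _))]
    rw [Finset.sum_eq_single n]
    · rw [Set.indicator_of_mem hn, del_apply, if_pos rfl]
    · intro j _ hjn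
      by_cases hj : j ∈ S
      · rw [Set.indicator_of_mem hj, del_apply, if_neg]
        intro h
        exact hjn (by exact_mod_cast h.symm)
      · rw [Set.indicator_of_notMem hj]
    · intro h
      exact absurd (Finset.mem_insert_self _ _) h
  have hcont : Continuous (R H : ℕ∞ → ℝ) := (R H).2
  have hlim := (hcont.tendsto ⊤).comp ENat.tendsto_natCast_nhds_top
  rw [htop] at hlim
  have hev := hlim.eventually (gt_mem_nhds (show (0 : ℝ) < 1 by norm_num))
  obtain ⟨N, hN⟩ := Filter.eventually_atTop.1 hev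
  obtain ⟨n, hn, hNn⟩ := hS.exists_gt N
  have := hN n hNn.le
  simp only [Function.comp] at this
  rw [hone n hn] at this
  exact lt_irrefl _ this

theorem not_sstable : ¬ IsSStable (Ultrafilter ℕ) := by
  rintro ⟨L⟩
  let P : Cp ℕ∞ →L[ℝ] Cp (Ultrafilter ℕ × ℕ∞) := mkMap
    { toFun := fun f z => (f : ℕ∞ → ℝ) z.2
      map_add' := fun f g => rfl
      map_smul' := fun c f => rfl }
    (fun f => by
      have hc : Continuous (f : ℕ∞ → ℝ) := f.2
      exact hc.comp continuous_snd)
    (fun z => show Continuous (fun f : Cp ℕ∞ => (f : ℕ∞ → ℝ) z.2) from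
        (continuous_apply _).comp continuous_subtype_val)
  let Q : Cp (Ultrafilter ℕ × ℕ∞) →L[ℝ] Cp ℕ∞ := mkMap
    { toFun := fun f n => (f : Ultrafilter ℕ × ℕ∞ → ℝ) (pure 0, n)
      map_add' := fun f g => rfl
      map_smul' := fun c f => rfl }
    (fun f => by
      have hc : Continuous (f : Ultrafilter ℕ × ℕ∞ → ℝ) := f.2
      exact hc.comp (by fun_prop))
    (fun n => show Continuous (fun f : Cp (Ultrafilter ℕ × ℕ∞) =>
        (f : Ultrafilter ℕ × ℕ∞ → ℝ) (pure 0, n)) from
        (continuous_apply _).comp continuous_subtype_val)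
  refine no_factor ((L : Cp (Ultrafilter ℕ × ℕ∞) →L[ℝ] Cp (Ultrafilter ℕ)).comp P)
    (Q.comp (L.symm : Cp (Ultrafilter ℕ) →L[ℝ] Cp (Ultrafilter ℕ × ℕ∞))) ?_
  intro f
  change Q (L.symm (L (P f))) = f
  rw [L.symm_apply_apply]
  rfl


/-- There is an infinite compact Hausdorff space, namely `βω`, which is l-stable and is not
S-stable. -/
theorem result : ∃ (X : Type) (_ : TopologicalSpace X),
    CompactSpace X ∧ T2Space X ∧ Infinite X ∧ IsLStable X ∧ ¬ IsSStable X := by
  refine ⟨Ultrafilter ℕ, inferInstance, inferInstance, inferInstance, ?_, lstable, not_sstable⟩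
  exact Infinite.of_injective (pure : ℕ → Ultrafilter ℕ) (fun a b h => by
    have h1 : ({a} : Set ℕ) ∈ (pure b : Ultrafilter ℕ) := by
      rw [← h]
      exact Ultrafilter.mem_pure.2 rfl
    exact (Ultrafilter.mem_pure.1 h1).symm)

end Pool.Agent.U55.BetaOm
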